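import Pool.Agent.Work.MP_d5d48f_lc.Main

/-!
Every countable model of ZF has an extension to a model of BSPT' in which the standard sets are
exactly the elements of the given model.
-/

universe u

open FirstOrder FirstOrder.Language Pool.Agent.Work.MP_d5d48f_lc in
/-- For every countable model `M` of ZF there are a structure `N` for the membership language and
an embedding `j` of `M` into `N` such that `N`, with `st` interpreted by the range of `j`,
satisfies all the axioms of BSPT'. -/
theorem Pool.Agent.Results.MP_d5d48f_lc.AllCountableModelsExtend.result
    (M : Type u) [Countable M] [LSet.Structure M] (hM : IsZF M) :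
    ∃ (N : Type u) (_ : LSet.Structure N) (j : M ↪[LSet] N), IsBSPT' (Set.range j) :=
  Pool.Agent.Work.MP_d5d48f_lc.main M hM
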